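import Pool.Agent.K6.H68.CC.KC3

/-!
# Bloch's conjecture for correspondences which hit few fibres of an abelian cover

Let `T` be a surface with the function field `K` (the theorem is about varieties `T` of any dimension
`n`; the question is the case `n = 2`), and let `Ω` be an algebraic closure of the function field of a
surface `S`. A cycle `Z = ∑ m_i Z_i` of dimension `2` on `S × T` all of whose components dominate `S`
and `T` is the same as a finite integral combination `c = ∑ c(σ) σ` of embeddings `σ : K → Ω` over `ℂ`
which is invariant under the Galois group of `Ω` over `ℂ(S)`; in other words, `c` is the restriction of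
`Z` to the geometric generic fibre `T_Ω` of `S × T → S`. The theorem is about all `c`; no invariance is
needed. `[Z]^* = 0` on `H^{2,0}(T)` means that `∑ c(σ) σ^* ω = 0` for all global 2-forms `ω` on `T`
(`NullTrace`, `Pool/Agent/N162/BC/Defs.lean`). The components of a correspondence which do not dominate
both factors have no effect on `H^{2,0}`, and act by zero on the Albanese kernel.

`Rat K Ω` (same file) is rational equivalence of zero-cycles on `T_Ω`, modulo the cycles which are
supported on `D_Ω` for a curve `D` on `T`. If a positive multiple of `c` is in `Rat K Ω` then a multiple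
of `Z` is rationally equivalent to the sum of a cycle supported on `S × D` and a cycle supported on
`D' × T`, for some curves `D` and `D'`, and so `Z_* = 0` on `F^2 CH_0(S)_ℚ` (Bloch and Srinivas; the
converse also holds; this is standard and not formalised here).

**Theorem.** Let `π : T ⇢ Y` be a Galois cover (a generically finite rational map, birational to the
quotient by a finite group `G` of birational automorphisms) with an abelian group `G`, and let
`z_1, ..., z_q` be functions on `Y` which generate its function field. Let us say that a character `χ` of
`G` has forms if there is a form `ω ≠ 0` on `T` such that `P(z) ω` is a global form for all polynomials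
`P` of degree at most `M`, and such that `G` acts on `ω` by a character `χ ^ t`, where `t` is prime to the
order of `G`. Let `c` have null trace, and let the points of `c` be on at most `M + 1` fibres of `π`, with
any number of points and any coefficients.

If for every character `χ` (including `χ = 1`, where the quotient is `Y`) either `χ` has forms or the
quotient `T / ker χ` is birational to `B × ℙ¹` for some variety `B`, then `|G| c ∈ Rat K Ω`.

So in these cases the open direction of Q1 holds for all `Z` with these few fibres, which may have any
number of points up to `(M + 1) |G|` over a general point of `S`.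

Examples (`kummer_covers` below): all Kummer covers `T` of `ℙⁿ` with normal crossings, which are given by
equations `w_k ^ N_k = f_k(x_0, …, x_n)`, `k = 1, …, c`, with forms `f_k` of degree `N_k b_k` whose zero
sets are smooth and cross normally (surfaces for `n = 2`). Here `G` is the group of the multiplications of
the `w_k` by roots of unity of order `N_k` (the degree is `∏ N_k`; not formalised). Let `p_k` be the
smallest prime factor of `N_k`. Then the theorem is about all `Z` whose points are on at most
`min_k b_k (N_k - N_k / p_k) - n` fibres of `T → ℙⁿ`, each with `∏ N_k` points. For instance, for the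
bidouble planes `w_1² = f_1`, `w_2² = f_2`, with smooth curves `f_i = 0` of degree `2 b_i` which intersect
transversely, these are `min (b_1, b_2) - 2` fibres. If `b_1 ≤ 2` and `b_2 ≥ 3` then the double plane
`w_1² = f_1` is rational, and the theorem is about `b_2 - 2` fibres (this last example is standard and not
formalised here).

Proof. The forms `P(z) ω` separate the at most `M + 1` points of `Y`, so that on each fibre
`∑_g c(σ g) χ ^ t (g) = 0`; this is a relation between roots of unity with integral coefficients, and so
`∑_g c(σ g) χ (g) = 0`, since `t` is prime to the order of `G`. Let `r_H(g)`, for a subgroup `H` of `G`, be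
the sum of `χ(g)` over the characters `χ` with the kernel `H`. This is an integer, by induction over the
subgroups which contain `H`, since the sum of `χ(g)` over the characters which are trivial on `H` is an
integer. Then
`|G| c = ∑_H c_H` for the cycles `c_H(σ) = ∑_g r_H(g) c(σ g)`, which are invariant under `H`, and so are
pulled back from `T / H`, and which are zero if all characters with the kernel `H` have forms. Finally,
if `T / H` is birational to `B × ℙ¹`, with the coordinate `t` on `ℙ¹`, then the pullback to `T` of a
point `(b, s)` is the divisor of the function `t - s` on a curve over `Ω`, the fibre of `T_Ω ⇢ B_Ω` over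
`b`, up to points which are not generic.
-/

set_option autoImplicit false
set_option linter.overlappingInstances false

open FF MvPolynomial Pool.Agent.W602.GT Pool.Agent.N162.BC

namespace Pool.Agent.Results.MP_31564d_ag.FewFibresAbelianCovers

/-- The variety with the function field `E` is birational to `B × ℙ¹` for some variety `B`: the field
`E` is a field `F(t)` of rational functions in one variable. -/
def IsRuled (E : Type) [Field E] [Algebra ℂ E] : Prop :=
  ∃ (F : IntermediateField ℂ E) (t : E), Transcendental F t ∧ IntermediateField.adjoin F {t} = ⊤

/-- The function field `ℂ(z)` of the variety `Y` to which the functions `z` on `T` give a map. -/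
noncomputable abbrev base {q : ℕ} {K : Type} [Field K] [Algebra ℂ K] (z : Fin q → K) :
    IntermediateField ℂ K :=
  IntermediateField.adjoin ℂ (Set.range z)

/-- `K` is the function field of a variety `T` of dimension `n`, and the functions `z` on `T` give a
generically finite map `T ⇢ Y` which is a Galois cover with an abelian group `G`, the group of the
automorphisms of `K` over the function field of `Y`. -/
structure IsAbelianCover (n : ℕ) {q : ℕ} {K : Type} [Field K] [Algebra ℂ K] (z : Fin q → K) :
    Prop where
  dim : Algebra.trdeg ℂ K = n
  finite : FiniteDimensional (base z) K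
  galois : IsGalois (base z) K
  comm : ∀ g h : K ≃ₐ[base z] K, g * h = h * g

/-- The group `G` acts on the canonical form `ω` by the character `ψ`: for all rational vector fields
`D'` on `T` which are lifts of vector fields `D` on `Y` (and so are invariant under `G`), the value
`ω(D')` is an eigenvector with the character `ψ`. -/
def IsEigenform {n q : ℕ} {K : Type} [Field K] [Algebra ℂ K] (z : Fin q → K)
    (ψ : (K ≃ₐ[base z] K) → ℂ) (ω : (Fin n → Derivation ℂ K K) → K) : Prop :=
  ∀ (D : Fin n → Derivation ℂ (base z) (base z)) (D' : Fin n → Derivation ℂ K K),
    (∀ i (f : base z), D' i (f : K) = (D i f : K)) →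
      ∀ g : K ≃ₐ[base z] K, g (ω D') = algebraMap ℂ K (ψ g) * ω D'

/-- There is a canonical form `ω ≠ 0` on `T` such that the forms `z ^ a ω` are global sections of the
canonical bundle for all monomials `z ^ a` of degree at most `M`, and `G` acts on `ω` by the character
`χ ^ t`, where `t` is prime to the degree of `T` over `Y`. -/
def HasForms (n M : ℕ) {q : ℕ} {K : Type} [Field K] [Algebra ℂ K] (z : Fin q → K)
    (χ : (K ≃ₐ[base z] K) →* ℂ) : Prop :=
  ∃ t : ℕ, t.Coprime (Module.finrank (base z) K) ∧ ∃ ω : (Fin n → Derivation ℂ K K) → K, ω ≠ 0 ∧
    IsEigenform z (fun g => χ g ^ t) ω ∧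
      ∀ a : Fin q → ℕ, ∑ l, a l ≤ M → GlobalForm n fun D => (∏ l, z l ^ a l) * ω D

/-- The function field of the quotient `T / ker χ`. -/
noncomputable abbrev quotient {q : ℕ} {K : Type} [Field K] [Algebra ℂ K] (z : Fin q → K)
    (χ : (K ≃ₐ[base z] K) →* ℂ) : IntermediateField ℂ K :=
  (IntermediateField.fixedField χ.ker).restrictScalars ℂ

/-- The number of the fibres of `T ⇢ Y` which contain points of `c`: the number of the points of `Y`
with values in `Ω`, given by their coordinates, which are the images of the points `σ` with `c σ ≠ 0`. -/
noncomputable def numFibres {q : ℕ} {K Ω : Type} [Field K] [Algebra ℂ K] [Field Ω] [Algebra ℂ Ω]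
    (z : Fin q → K) (c : (K →ₐ[ℂ] Ω) →₀ ℤ) : ℕ :=
  Set.ncard {u : Fin q → Ω | ∃ σ : K →ₐ[ℂ] Ω, c σ ≠ 0 ∧ u = fun l => σ (z l)}

/-- `K` is the function field of the Kummer cover of `ℙⁿ` with the equations
`w_k ^ N_k = f_k(x_0, …, x_n)`, `k = 1, …, c`, where `f_k` is a form of degree `N_k b_k`, normalised by
`x_0 = 1`. The hypersurfaces `f_k = 0` are smooth and cross normally: at every point `p` the gradients of
the forms `f_k` which vanish in `p` are linearly independent. -/
structure IsKummerCover {n c : ℕ} (N b : Fin c → ℕ) (f : Fin c → MvPolynomial (Fin (n + 1)) ℂ)
    {K : Type} [Field K] [Algebra ℂ K] (x : Fin (n + 1) → K) (w : Fin c → K) : Prop where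
  forms : ∀ k, (f k).IsHomogeneous (N k * b k)
  normal_crossings : ∀ p : Fin (n + 1) → ℂ, p ≠ 0 → LinearIndependent ℂ
    fun (k : {k : Fin c // eval p (f k) = 0}) (l : Fin (n + 1)) => eval p (pderiv l (f k))
  one : x 0 = 1
  equation : ∀ k, w k ^ N k = aeval x (f k)
  ne_zero : ∀ k, w k ≠ 0
  gen : IntermediateField.adjoin ℂ (Set.range x ∪ Set.range w) = ⊤
  dim : Algebra.trdeg ℂ K = n

/-- Examples: Kummer covers of `ℙⁿ` with normal crossings, where
`M + n + 1 ≤ b_k (N_k - N_k / p_k)` for the smallest prime factor `p_k` of `N_k`. -/
theorem kummer_covers {n c M : ℕ} {K : Type} [Field K] [Algebra ℂ K] (hn : 1 ≤ n)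
    {N b : Fin c → ℕ} {f : Fin c → MvPolynomial (Fin (n + 1)) ℂ} {x : Fin (n + 1) → K}
    {w : Fin c → K} (hT : IsKummerCover N b f x w)
    (hM : ∀ k, M + n + 1 ≤ b k * (N k - N k / (N k).minFac)) :
    IsAbelianCover n (fun l : Fin n => x l.succ) ∧
      ∀ χ, HasForms n M (fun l : Fin n => x l.succ) χ ∨
        IsRuled (quotient (fun l : Fin n => x l.succ) χ) := by
  obtain ⟨hfin, hgal, hcomm, hruled, hforms⟩ := Pool.Agent.K6.H68.CC.kum_main hn hT.forms
    hT.normal_crossings hT.one hT.equation hT.ne_zero hT.gen hT.dim hM rfl
  refine ⟨⟨hT.dim, hfin, hgal, hcomm⟩, fun χ => ?_⟩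
  by_cases hχ : χ = 1
  · right
    have h1 : quotient (fun l : Fin n => x l.succ) χ = base fun l : Fin n => x l.succ := by
      have h2 : χ.ker = ⊤ := by
        rw [hχ]
        exact MonoidHom.ker_one
      unfold quotient
      rw [h2, IsGalois.fixedField_top, IntermediateField.restrictScalars_bot_eq_self]
    rw [h1]
    exact hruled
  · left
    exact hforms χ hχ

/-- **Bloch's conjecture for correspondences which hit few fibres of an abelian cover.** Let
`z : T ⇢ Y` be a Galois cover with an abelian group `G`, such that for every character `χ` of `G` either
`χ` has forms or the quotient `T / ker χ` is ruled. Let `Ω` be any algebraically closed field over `ℂ`, and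
let `c` be an integral combination of embeddings `K → Ω` over `ℂ` with null trace, whose points are on at
most `M + 1` fibres. Then `[K : ℂ(z)] c ∈ Rat K Ω`. -/
theorem result {n M q : ℕ} {K Ω : Type} [Field K] [Algebra ℂ K] [Algebra.EssFiniteType ℂ K]
    [Field Ω] [Algebra ℂ Ω] [IsAlgClosed Ω] {z : Fin q → K} (hz : IsAbelianCover n z)
    (characters : ∀ χ : (K ≃ₐ[base z] K) →* ℂ, HasForms n M z χ ∨ IsRuled (quotient z χ))
    (c : (K →ₐ[ℂ] Ω) →₀ ℤ) (hc : NullTrace n c) (few : numFibres z c ≤ M + 1) :
    Module.finrank (base z) K • c ∈ Rat K Ω := by
  have hfin := hz.finite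
  have hgal := hz.galois
  exact Pool.Agent.K6.H68.CC.main4 hz.dim rfl hz.comm characters hc few

end Pool.Agent.Results.MP_31564d_ag.FewFibresAbelianCovers
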