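import Pool.Agent.K6.H68.CC.CoverB

/-!
# Bloch's conjecture for correspondences which hit few fibres of a cover with arbitrary monodromy

Let `T` be a surface with the function field `K` (the theorem is about varieties `T` of any dimension
`n`; the question is the case `n = 2`), and let `Ω` be an algebraic closure of the function field of a
surface `S`. A cycle `Z = ∑ m_i Z_i` of dimension `2` on `S × T` all of whose components dominate `S`
and `T` is the same as a finite integral combination `c = ∑ c(σ) σ` of embeddings `σ : K → Ω` over `ℂ`
which is invariant under the Galois group of `Ω` over `ℂ(S)`; in other words, `c` is the restriction of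
`Z` to the geometric generic fibre `T_Ω` of `S × T → S`. The theorem is about all `c`; no invariance is
needed. `[Z]^* = 0` on `H^{2,0}(T)` means that `∑ c(σ) σ^* ω = 0` for all global 2-forms `ω` on `T`
(`NullTrace`, `Pool/Agent/N162/BC/Defs.lean`). The components of a correspondence which do not dominate
both factors have no effect on `H^{2,0}`, and act by zero on the Albanese kernel.

`Rat K Ω` (same file) is rational equivalence of zero-cycles on `T_Ω`, modulo the cycles which are
supported on `D_Ω` for a curve `D` on `T`. If `c ∈ Rat K Ω` then a multiple of `Z` is rationally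
equivalent to the sum of a cycle supported on `S × D` and a cycle supported on `D' × T`, for some curves
`D` and `D'`, and so `Z_* = 0` on `F^2 CH_0(S)_ℚ` (Bloch and Srinivas; the converse also holds; this is
standard and not formalised here).

**Theorem.** Let `π : T ⇢ Y` be a generically finite rational map of degree `N` to any variety `Y`, let
`z_1, ..., z_q` be functions on `Y` which generate its function field, let `y` be a function on `T` which
generates `K` over the function field of `Y`, and let `f` be its minimal polynomial. Let `η ≠ 0` be a
rational form on `Y` such that the forms `z ^ a y ^ j π^*η / f'(y)` are global forms on `T` for all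
monomials `z ^ a` of degree at most `M` and all `j ≤ J`, where `N ≤ 2 J + 3`. If `c` has null trace, and
the points of `c` are on at most `M + 1` fibres of `π`, with any number of points and any coefficients,
then `c = π^* c₁`, where `c₁` has null trace on `Y`; on each fibre of `π` the coefficients of all points
are equal. If `Y` is birational to `B × ℙ¹` for some variety `B` (for instance if `Y = ℙⁿ`, or if `Y` is
any ruled surface, also an irregular one) then `c ∈ Rat K Ω`. Nothing is assumed about the monodromy of
`π`, or about intermediate covers of `π`.

So for the cycles `Z` with these few fibres the open direction of Q1 holds if `Y` is ruled, and in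
general it holds for `Z` if and only if it holds for the cycle `Z₁ = π_* Z / N` on `S × Y`, since
`Z_* = π^* Z₁_*` (standard, not formalised here).

Examples (`smooth_covers` below): all smooth hypersurfaces
`y ^ N + a_{N - 1}(x) y ^ (N - 1) + ⋯ + a_0(x) = 0` in the line bundle `O(k)` over `ℙⁿ`, where `a_i` is a form
of degree `(N - i) k` and `N ≥ 2`, with `M + n + 1 = ⌊(N + 1) / 2⌋ k`. (For `k = 1` these are all smooth
hypersurfaces in `ℙ^(n+1)`, with the projection from any point outside.) So **for every smooth surface `T`
which is a cover of degree `N` of the plane in `O(k)`, for instance for all cyclic covers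
`y ^ N = a_0(x)`, the open direction of Q1 holds for all cycles `Z` whose points over a general point of
`S` are on at most `⌊(N + 1) / 2⌋ k - 2` fibres of `T → ℙ²`**; up to `N (⌊(N + 1) / 2⌋ k - 2)` points are
allowed. The bound cannot be improved by more than a constant factor: if `N` is even and `T` is a cyclic
cover, then a general cycle `Z` from the divisors of functions on the curves in the double cover
`u ^ 2 = a_0(x)` over lines, with points over `N k` points of the plane, is not a pullback from the
plane. Other results for few fibres assume that the monodromy group is doubly transitive or that `N` is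
prime (`FewFibresOfFiniteMap`, with the bound `(N - 1) k - 2`).

Proof. The forms `P(z) y ^ j π^*η / f'(y)` separate the at most `M + 1` points of `Y`, so that on each
fibre `∑ c(σ) σ(y) ^ j / f'(σ(y)) = 0` for all `j ≤ J`. By Euler's formulas there is a polynomial `p` of
degree at most `N - 2 - J < N / 2` over the algebraic closure of the function field `E` of `Y` such that
`c(σ) = p(σ(y))`. We show that a polynomial `p` of degree `e < N / 2` with integral values at all `N`
conjugates `y_i` of `y` is constant. Let `e > 0`, and let `l` be the leading coefficient of `p`. If `g` is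
an element of the Galois group then the conjugate polynomial `p^g` has the same values in another
order. For every derivation `D` we have `0 = D(p(y_i)) = p^D(y_i) + p'(y_i) D(y_i)`, where `p^D` is
the polynomial with the differentiated coefficients, and the same for `p^g`; so the polynomial
`p^D (p^g)' - (p^g)^D p'` of degree at most `2 e - 1 < N` has `N` zeros and is zero, and its leading term
shows that `D(g(l) / l) = 0`. Therefore `g(l) = χ(g) l` with complex numbers `χ(g)`, which are a character
of finite order. The polynomials `P = ∑ χ(g)⁻¹ p^g` and `Q = ∑ χ(g) p^g`, sums over the finite Galois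
group, have complex conjugate values at `y_i`, the absolute value is the same for all `i`, and `P` has
the degree `e`. So `P Q` has the same value at all `y_i`, and since its degree is less than `N` it is
constant, a contradiction.
-/

set_option autoImplicit false
set_option linter.overlappingInstances false

open FF MvPolynomial Pool.Agent.W602.GT Pool.Agent.N162.BC

namespace Pool.Agent.Results.MP_31564d_ag.FewFibresAnyMonodromy

/-- The variety with the function field `E` is birational to `B × ℙ¹` for some variety `B`: the field
`E` is a field `F(t)` of rational functions in one variable. -/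
def IsRuled (E : Type) [Field E] [Algebra ℂ E] : Prop :=
  ∃ (F : IntermediateField ℂ E) (t : E), Transcendental F t ∧ IntermediateField.adjoin F {t} = ⊤

/-- The function field `ℂ(z)` of the variety `Y` to which the functions `z` on `T` give a map. -/
noncomputable abbrev base {q : ℕ} {K : Type} [Field K] [Algebra ℂ K] (z : Fin q → K) :
    IntermediateField ℂ K :=
  IntermediateField.adjoin ℂ (Set.range z)

/-- The canonical form `η` on `T` is the pullback of a rational form on `Y`: its values on the rational
vector fields `D'` on `T` which are lifts of vector fields `D` on `Y` are functions on `Y`. -/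
def IsPulledBack {n q : ℕ} {K : Type} [Field K] [Algebra ℂ K] (z : Fin q → K)
    (η : (Fin n → Derivation ℂ K K) → K) : Prop :=
  ∀ (D : Fin n → Derivation ℂ (base z) (base z)) (D' : Fin n → Derivation ℂ K K),
    (∀ i (f : base z), D' i (f : K) = (D i f : K)) → η D' ∈ base z

/-- `K` is the function field of a variety `T` of dimension `n`, and `z` are functions on `T` which
give a generically finite map `T ⇢ Y`; the function `y` on `T` generates `K` over the function field of
`Y`, and `f` is its minimal polynomial. There is a form `η ≠ 0` on `T` which is pulled back from `Y` such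
that the forms `z ^ a y ^ j η / f'(y)` are global sections of the canonical bundle for all monomials
`z ^ a` of degree at most `M` and all `j ≤ J`. -/
structure CoverWithForms (n M J : ℕ) {q : ℕ} {K : Type} [Field K] [Algebra ℂ K] (z : Fin q → K)
    (y : K) : Prop where
  dim : Algebra.trdeg ℂ K = n
  finite : FiniteDimensional (base z) K
  gen : IntermediateField.adjoin ℂ (insert y (Set.range z)) = ⊤
  forms : ∃ η : (Fin n → Derivation ℂ K K) → K, η ≠ 0 ∧ IsPulledBack z η ∧
    ∀ (a : Fin q → ℕ) (j : ℕ), ∑ l, a l ≤ M → j ≤ J → GlobalForm n fun D =>
      (∏ l, z l ^ a l) * y ^ j *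
        (η D / Polynomial.aeval y (Polynomial.derivative (minpoly (base z) y)))

/-- The number of the fibres of `T ⇢ Y` which contain points of `c`: the number of the points of `Y`
with values in `Ω`, given by their coordinates, which are the images of the points `σ` with `c σ ≠ 0`. -/
noncomputable def numFibres {q : ℕ} {K Ω : Type} [Field K] [Algebra ℂ K] [Field Ω] [Algebra ℂ Ω]
    (z : Fin q → K) (c : (K →ₐ[ℂ] Ω) →₀ ℤ) : ℕ :=
  Set.ncard {u : Fin q → Ω | ∃ σ : K →ₐ[ℂ] Ω, c σ ≠ 0 ∧ u = fun l => σ (z l)}

/-- The polynomial `y ^ N + a_{N - 1}(x) y ^ (N - 1) + ⋯ + a_0(x)` in the variables `y` (the first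
variable, with the index `0`) and `x_0, …, x_n`. -/
noncomputable def equation {n N : ℕ} (a : Fin N → MvPolynomial (Fin (n + 1)) ℂ) :
    MvPolynomial (Fin (n + 2)) ℂ :=
  X 0 ^ N + ∑ i, rename Fin.succ (a i) * X 0 ^ (i : ℕ)

/-- The equation defines a smooth hypersurface of degree `N k` in the weighted projective space
`P(k, 1, …, 1)`: the `a_i` are forms of degree `(N - i) k`, and the partial derivatives have no common
zero but `0`. -/
structure IsSmoothCover {n N : ℕ} (k : ℕ) (a : Fin N → MvPolynomial (Fin (n + 1)) ℂ) : Prop where
  forms : ∀ i : Fin N, (a i).IsHomogeneous ((N - i) * k)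
  smooth : ∀ z : Fin (n + 2) → ℂ, z ≠ 0 → ∃ l, eval z (pderiv l (equation a)) ≠ 0

/-- `(x, y)` is the generic point of the hypersurface, whose function field is `K`; the coordinates
are normalised by `x 0 = 1`. The degree over `ℙⁿ` is `N`: the hypersurface is irreducible. -/
structure IsGenericPoint {n N : ℕ} (a : Fin N → MvPolynomial (Fin (n + 1)) ℂ) {K : Type} [Field K]
    [Algebra ℂ K] (x : Fin (n + 1) → K) (y : K) : Prop where
  one : x 0 = 1
  zero : y ^ N + ∑ i, aeval x (a i) * y ^ (i : ℕ) = 0
  gen : IntermediateField.adjoin ℂ (insert y (Set.range x)) = ⊤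
  dim : Algebra.trdeg ℂ K = n
  degree : Module.finrank (base fun i : Fin n => x i.succ) K = N

/-- Examples: smooth covers of degree `N ≥ 2` of `ℙⁿ` in the line bundle `O(k)`, with
`M + n + 1 ≤ ⌊(N + 1) / 2⌋ k`. -/
theorem smooth_covers {n N k M : ℕ} {a : Fin N → MvPolynomial (Fin (n + 1)) ℂ} {K : Type}
    [Field K] [Algebra ℂ K] {x : Fin (n + 1) → K} {y : K} (hn : 1 ≤ n) (hN : 2 ≤ N)
    (hV : IsSmoothCover k a) (hxy : IsGenericPoint a x y) (hM : M + n + 1 ≤ (N + 1) / 2 * k) :
    IsRuled (base fun i : Fin n => x i.succ) ∧
      ∃ J, Module.finrank (base fun i : Fin n => x i.succ) K ≤ 2 * J + 3 ∧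
        CoverWithForms n M J (fun i : Fin n => x i.succ) y := by
  obtain ⟨hfin, hind⟩ := Pool.Agent.K6.H68.CC.cover_finite hxy.one hxy.zero hxy.gen hxy.dim
  obtain ⟨hη0, hηp⟩ := Pool.Agent.K6.H68.CC.det_form hind
  obtain ⟨r, hr⟩ : ∃ r, r = (N + 1) / 2 := ⟨_, rfl⟩
  rw [← hr] at hM
  refine ⟨Pool.Agent.K6.H68.CC.ruled_of_indep hn hind, N - 1 - r, ?_, hxy.dim, hfin, ?_,
    _, hη0, hηp, ?_⟩
  · rw [hxy.degree]
    omega
  · refine top_unique ?_
    rw [← hxy.gen, IntermediateField.adjoin_le_iff]
    rintro w (rfl | ⟨j, rfl⟩)
    · exact IntermediateField.subset_adjoin _ _ (Set.mem_insert _ _)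
    · refine Fin.cases ?_ (fun i => ?_) j
      · rw [hxy.one]
        exact one_mem _
      · exact IntermediateField.subset_adjoin _ _ (Set.mem_insert_of_mem _ ⟨i, rfl⟩)
  · intro b j hb hj
    refine Pool.Agent.K6.H68.CC.cover_forms2 hV.forms hV.smooth hxy.one hxy.zero hxy.gen
      hxy.degree b j ?_
    obtain ⟨s, rfl⟩ : ∃ s, N = s + 1 + r := ⟨N - 1 - r, by omega⟩
    have h1 : j * k ≤ s * k := Nat.mul_le_mul_right _ (by omega)
    have h2 : (s + 1 + r) * k = s * k + k + r * k := by ring
    rw [h2]
    omega

/-- **Bloch's conjecture for correspondences which hit few fibres of a cover with arbitrary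
monodromy.** Let `T ⇢ Y` be a generically finite map of varieties of dimension `n`, given by the
functions `z`, let `K = ℂ(z, y)`, and let `f` be the minimal polynomial of `y` over `ℂ(z)`, of degree
`N ≤ 2 J + 3`. Suppose that the forms `z ^ a y ^ j η / f'(y)` are global forms on `T` for all monomials of
degree at most `M` and `j ≤ J`, for a form `η ≠ 0` pulled back from `Y`. Let `Ω` be any algebraically
closed field over `ℂ`, and let `c` be an integral combination of embeddings `K → Ω` over `ℂ` with null
trace, whose points are on at most `M + 1` fibres. Then `c` is the pullback of a combination `c₁` on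
`Y` with null trace, and if `Y` is ruled then `c ∈ Rat K Ω`. -/
theorem result {n M J q : ℕ} {K Ω : Type} [Field K] [Algebra ℂ K] [Algebra.EssFiniteType ℂ K]
    [Field Ω] [Algebra ℂ Ω] [IsAlgClosed Ω] {z : Fin q → K} {y : K}
    (hz : CoverWithForms n M J z y) (degree : Module.finrank (base z) K ≤ 2 * J + 3)
    (c : (K →ₐ[ℂ] Ω) →₀ ℤ) (hc : NullTrace n c) (few : numFibres z c ≤ M + 1) :
    ∃ c₁ : (base z →ₐ[ℂ] Ω) →₀ ℤ, NullTrace n c₁ ∧ (∀ σ, c σ = c₁ (σ.comp (base z).val)) ∧
      (IsRuled (base z) → c ∈ Rat K Ω) := by
  have hfin := hz.finite
  obtain ⟨η, hη0, hηp, hη⟩ := hz.forms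
  exact Pool.Agent.K6.H68.CC.main2 hz.dim hz.gen degree hη0 hηp hη hc few

end Pool.Agent.Results.MP_31564d_ag.FewFibresAnyMonodromy
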