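import Pool.Agent.K6.H68.CC.Base
import Pool.Agent.K6.H68.CC.Cover

/-!
# Bloch's conjecture for correspondences which hit few fibres of a generically finite map

Let `T` be a surface with the function field `K` (the theorem is about varieties `T` of any dimension
`n`; the question is the case `n = 2`), and let `Ω` be an algebraic closure of the function field of a
surface `S`. A cycle `Z = ∑ m_i Z_i` of dimension `2` on `S × T` all of whose components dominate `S`
and `T` is the same as a finite integral combination `c = ∑ c(σ) σ` of embeddings `σ : K → Ω` over `ℂ`
which is invariant under the Galois group of `Ω` over `ℂ(S)`; in other words, `c` is the restriction of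
`Z` to the geometric generic fibre `T_Ω` of `S × T → S`. The theorem is about all `c`; no invariance is
needed. `[Z]^* = 0` on `H^{2,0}(T)` means that `∑ c(σ) σ^* ω = 0` for all global 2-forms `ω` on `T`
(`NullTrace`, `Pool/Agent/N162/BC/Defs.lean`). The components of a correspondence which do not dominate
both factors have no effect on `H^{2,0}`, and act by zero on the Albanese kernel.

`Rat K Ω` (same file) is rational equivalence of zero-cycles on `T_Ω`, modulo the cycles which are
supported on `D_Ω` for a curve `D` on `T`. If `c ∈ Rat K Ω` then a multiple of `Z` is rationally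
equivalent to the sum of a cycle supported on `S × D` and a cycle supported on `D' × T`, for some curves
`D` and `D'`, and so `Z_* = 0` on `F^2 CH_0(S)_ℚ` (Bloch and Srinivas; the converse also holds; this is
standard and not formalised here).

**Theorem.** Let `π : T ⇢ Y` be a generically finite rational map to any variety `Y`, let `z_1, ..., z_q`
be functions on `Y` which generate its function field, and let `H` be the divisor of their poles on
`T`. Suppose that `K_T = M H + (effective)`; more precisely, that there is a form `ω ≠ 0` such that
`P(z) ω` is a global form for all polynomials `P` of degree at most `M`, and, if `Y` is not ruled, that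
`ω` is not the pullback of a form on `Y`. Suppose that the degree `N` of `π` is a prime number, or that the monodromy group of `π` is doubly
transitive. If `c` has null trace, and the points of `c` are on at most `M + 1` fibres of `π`, with any
number of points and any coefficients, then `c = π^* c₁`, where `c₁` has null trace on `Y`; on each fibre
of `π` the coefficients of all points are equal. If `Y` is birational to `B × ℙ¹` for some variety `B`
(for instance if `Y = ℙⁿ`, or if `Y` is any ruled surface, also an irregular one) then `c ∈ Rat K Ω`.

So for the cycles `Z` with these few fibres the open direction of Q1 holds if `Y` is ruled, and in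
general it holds for `Z` if and only if it holds for the cycle `Z₁ = π_* Z / N` on `S × Y`, since
`Z_* = π^* Z₁_*` (standard, not formalised here).

Examples (`smooth_covers` below): all smooth hypersurfaces
`y ^ N + a_{N - 1}(x) y ^ (N - 1) + ⋯ + a_0(x) = 0` in the line bundle `O(k)` over `ℙⁿ`, where `a_i` is a form
of degree `(N - i) k`. (For `k = 1` these are all smooth hypersurfaces in `ℙ^(n+1)`, with the projection
from any point outside; for `N = 2` the double planes, double solids and so on.) Here `K_T = O(M)` with
`M = (N - 1) k - n - 1`, and the degree is `N` (`T` is irreducible; not formalised). So, for example, let `T` be a smooth surface of degree `N` in `ℙ³` and let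
`p` be a point outside `T`, and let `N` be prime or the monodromy of the projection from `p` doubly
transitive (for all but finitely many `p` it is the symmetric group, a known result). If the points of
`Z` over a general point of `S` are on at most `N - 3` lines through `p` then `[Z]^* = 0` on `H^{2,0}` if
and only if `Z` is a combination of families of complete sections of `T` with lines through `p`. Up to
`N (N - 3)` points over a general point of `S` are allowed. The same holds for all smooth double planes
`y ^ 2 = f(x)`, where `f` has degree `2 k`, with `k - 2` points of the plane. The bound cannot be improved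
by more than a constant factor: if the points of `Z` are allowed to be on `2 (N - 1)` lines through `p`
then there are others, from the pencils of the degree `N - 1` on the plane sections.

Proof. The forms `P(z) ω` separate the at most `M + 1` points of `Y`, so that on each fibre
`∑ c(σ) σ(w) = 0`, where `w` is the coefficient of `ω` with respect to coordinates of `Y`; the same holds
for the trace of `w`, because the traces of global forms are global forms, and so for
`w' = N w - Tr w`, which is not zero and has trace zero. This is a relation with integral coefficients
between the conjugates of `w'` over the function field `E` of `Y`, and the Galois group acts on these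
relations. If the Galois group is doubly transitive we average over the stabiliser of a point, and see
that the coefficient at this point is the average of all coefficients. If `N` is prime then there is an
element of order `N`, which permutes the conjugates `w'_i` cyclically; the discrete Fourier transforms
of `(w'_i)` and of `(c_i)` have the product zero, so that `∑ c_i ζ^i = 0` for a root of unity `ζ` of
order `N`, since the trace is zero and `w'` is not, and the `c_i` are equal by the irreducibility of the
cyclotomic polynomial. Let `E = F(t)` be the function field of `Y = B × ℙ¹`, and consider the curve over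
`Ω` which is the fibre of `T_Ω ⇢ B_Ω` over a point `b` of `B` with values in `Ω`. The fibre of `π` over
`(b, s)` is the divisor of the function `t - s` on this curve, up to points which are not generic.
-/

set_option autoImplicit false
set_option linter.overlappingInstances false

open FF MvPolynomial Pool.Agent.W602.GT Pool.Agent.N162.BC

namespace Pool.Agent.Results.MP_31564d_ag.FewFibresOfFiniteMap

/-- The variety with the function field `E` is birational to `B × ℙ¹` for some variety `B`: the field
`E` is a field `F(t)` of rational functions in one variable. -/
def IsRuled (E : Type) [Field E] [Algebra ℂ E] : Prop :=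
  ∃ (F : IntermediateField ℂ E) (t : E), Transcendental F t ∧ IntermediateField.adjoin F {t} = ⊤

/-- The monodromy group is doubly transitive: the Galois group acts doubly transitively on the
embeddings of `K` in the algebraic closure of `E`. -/
def IsDoublyTransitive (E K : Type) [Field E] [Field K] [Algebra E K] : Prop :=
  ∀ σ τ σ' τ' : K →ₐ[E] AlgebraicClosure E, σ ≠ τ → σ' ≠ τ' →
    ∃ g : AlgebraicClosure E ≃ₐ[E] AlgebraicClosure E,
      (∀ a, g (σ a) = σ' a) ∧ ∀ a, g (τ a) = τ' a

/-- The function field `ℂ(z)` of the variety `Y` to which the functions `z` on `T` give a map. -/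
noncomputable abbrev base {q : ℕ} {K : Type} [Field K] [Algebra ℂ K] (z : Fin q → K) : IntermediateField ℂ K :=
  IntermediateField.adjoin ℂ (Set.range z)

/-- The canonical form `ω` on `T` is the pullback of a rational form on `Y`: its values on the rational
vector fields `D'` on `T` which are lifts of vector fields `D` on `Y` are functions on `Y`. -/
def IsPulledBack {n q : ℕ} {K : Type} [Field K] [Algebra ℂ K] (z : Fin q → K)
    (ω : (Fin n → Derivation ℂ K K) → K) : Prop :=
  ∀ (D : Fin n → Derivation ℂ (base z) (base z)) (D' : Fin n → Derivation ℂ K K),
    (∀ i (f : base z), D' i (f : K) = (D i f : K)) → ω D' ∈ base z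

/-- `K` is the function field of a variety `T` of dimension `n`, and `z` are functions on `T` which
give a generically finite map `T ⇢ Y`. There is a canonical form `ω ≠ 0` on `T` such that the forms
`z ^ a ω` are global sections of the canonical bundle for all monomials `z ^ a` of degree at most `M`. If
`Y` is not ruled then `ω` is not pulled back from `Y`. -/
structure MapWithForms (n M : ℕ) {q : ℕ} {K : Type} [Field K] [Algebra ℂ K] (z : Fin q → K) :
    Prop where
  dim : Algebra.trdeg ℂ K = n
  finite : FiniteDimensional (base z) K
  forms : ∃ ω : (Fin n → Derivation ℂ K K) → K, ω ≠ 0 ∧ (IsRuled (base z) ∨ ¬ IsPulledBack z ω) ∧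
    ∀ a : Fin q → ℕ, ∑ l, a l ≤ M → GlobalForm n fun D => (∏ l, z l ^ a l) * ω D

/-- The number of the fibres of `T ⇢ Y` which contain points of `c`: the number of the points of `Y`
with values in `Ω`, given by their coordinates, which are the images of the points `σ` with `c σ ≠ 0`. -/
noncomputable def numFibres {q : ℕ} {K Ω : Type} [Field K] [Algebra ℂ K] [Field Ω] [Algebra ℂ Ω]
    (z : Fin q → K) (c : (K →ₐ[ℂ] Ω) →₀ ℤ) : ℕ :=
  Set.ncard {u : Fin q → Ω | ∃ σ : K →ₐ[ℂ] Ω, c σ ≠ 0 ∧ u = fun l => σ (z l)}

/-- The polynomial `y ^ N + a_{N - 1}(x) y ^ (N - 1) + ⋯ + a_0(x)` in the variables `y` (the first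
variable, with the index `0`) and `x_0, …, x_n`. -/
noncomputable def equation {n N : ℕ} (a : Fin N → MvPolynomial (Fin (n + 1)) ℂ) :
    MvPolynomial (Fin (n + 2)) ℂ :=
  X 0 ^ N + ∑ i, rename Fin.succ (a i) * X 0 ^ (i : ℕ)

/-- The equation defines a smooth hypersurface of degree `N k` in the weighted projective space
`P(k, 1, …, 1)`: the `a_i` are forms of degree `(N - i) k`, and the partial derivatives have no common
zero but `0`. -/
structure IsSmoothCover {n N : ℕ} (k : ℕ) (a : Fin N → MvPolynomial (Fin (n + 1)) ℂ) : Prop where
  forms : ∀ i : Fin N, (a i).IsHomogeneous ((N - i) * k)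
  smooth : ∀ z : Fin (n + 2) → ℂ, z ≠ 0 → ∃ l, eval z (pderiv l (equation a)) ≠ 0

/-- `(x, y)` is the generic point of the hypersurface, whose function field is `K`; the coordinates
are normalised by `x 0 = 1`. -/
structure IsGenericPoint {n N : ℕ} (a : Fin N → MvPolynomial (Fin (n + 1)) ℂ) {K : Type} [Field K]
    [Algebra ℂ K] (x : Fin (n + 1) → K) (y : K) : Prop where
  one : x 0 = 1
  zero : y ^ N + ∑ i, aeval x (a i) * y ^ (i : ℕ) = 0
  gen : IntermediateField.adjoin ℂ (insert y (Set.range x)) = ⊤
  dim : Algebra.trdeg ℂ K = n

/-- Examples: smooth covers of degree `N` of `ℙⁿ` in the line bundle `O(k)`,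
with `M + n + 1 ≤ (N - 1) k`. -/
theorem smooth_covers {n N k M : ℕ} {a : Fin N → MvPolynomial (Fin (n + 1)) ℂ} {K : Type}
    [Field K] [Algebra ℂ K] {x : Fin (n + 1) → K} {y : K} (hn : 1 ≤ n) (hV : IsSmoothCover k a)
    (hxy : IsGenericPoint a x y) (hM : M + n + 1 ≤ (N - 1) * k) :
    IsRuled (base fun i : Fin n => x i.succ) ∧ MapWithForms n M (fun i : Fin n => x i.succ) := by
  obtain ⟨hfin, hind⟩ := Pool.Agent.K6.H68.CC.cover_finite hxy.one hxy.zero hxy.gen hxy.dim
  have hM' : M + n + 1 + k ≤ N * k := by
    have hN : N ≠ 0 := by
      rintro rfl
      have h1 := hxy.zero
      simp at h1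
    obtain ⟨N', rfl⟩ : ∃ N', N = N' + 1 := ⟨N - 1, by omega⟩
    rw [Nat.add_sub_cancel] at hM
    rw [add_mul, one_mul]
    omega
  obtain ⟨ω, hω0, hω⟩ := Pool.Agent.K6.H68.CC.cover_forms hV.forms hV.smooth hxy.one hxy.zero
    hxy.gen hxy.dim hM'
  have hruled : IsRuled (base fun i : Fin n => x i.succ) :=
    Pool.Agent.K6.H68.CC.ruled_of_indep hn hind
  exact ⟨hruled, hxy.dim, hfin, ω, hω0, Or.inl hruled, hω⟩

/-- **Bloch's conjecture for correspondences which hit few fibres of a generically finite map.**
Let `z : T ⇢ Y` be a generically finite map of varieties of dimension `n`, with a canonical form `ω ≠ 0`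
on `T` such that `z ^ a ω` is a global form for all monomials of degree at most `M`; if `Y` is not ruled,
let `ω` not be pulled back from `Y`. Let the degree of the map be prime, or its monodromy group doubly
transitive. Let `Ω` be any algebraically closed field over `ℂ`, and let `c` be an integral combination of
embeddings `K → Ω` over `ℂ` with null trace, whose points are on at most `M + 1` fibres. Then `c` is the
pullback of a combination `c₁` on `Y` with null trace, and if `Y` is ruled then `c ∈ Rat K Ω`. -/
theorem result {n M q : ℕ} {K Ω : Type} [Field K] [Algebra ℂ K] [Algebra.EssFiniteType ℂ K]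
    [Field Ω] [Algebra ℂ Ω] [IsAlgClosed Ω] {z : Fin q → K} (hz : MapWithForms n M z)
    (monodromy : (Module.finrank (base z) K).Prime ∨ IsDoublyTransitive (base z) K)
    (c : (K →ₐ[ℂ] Ω) →₀ ℤ) (hc : NullTrace n c) (few : numFibres z c ≤ M + 1) :
    ∃ c₁ : (base z →ₐ[ℂ] Ω) →₀ ℤ, NullTrace n c₁ ∧ (∀ σ, c σ = c₁ (σ.comp (base z).val)) ∧
      (IsRuled (base z) → c ∈ Rat K Ω) := by
  have hfin := hz.finite
  obtain ⟨ω, hω0, hnp, hω⟩ := hz.forms
  refine Pool.Agent.K6.H68.CC.main' hz.dim monodromy ?_ hω hc few
  rcases hnp with hruled | hnp
  · have hωz := hω (fun _ => 0) (by simp)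
    simp only [pow_zero, Finset.prod_const_one, one_mul] at hωz
    exact Pool.Agent.K6.H68.CC.not_pulled hz.dim (base z) hruled hωz hω0
  · unfold IsPulledBack at hnp
    push Not at hnp
    exact hnp

end Pool.Agent.Results.MP_31564d_ag.FewFibresOfFiniteMap
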