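import Pool.Agent.K6.H85.Twist

/-!
# Bloch's conjecture for correspondences which hit few fibres of a fibration over a curve of any genus

Let `T` be a surface with the function field `K`, and let `Ω` be an algebraic closure of the
function field of a surface `S`. A cycle `Z = ∑ m_i Z_i` of dimension `2` on `S × T` all of whose
components dominate `S` and `T` is the same as a finite integral combination `c = ∑ c(σ) σ` of
embeddings `σ : K → Ω` over `ℂ` which is invariant under the Galois group of `Ω` over `ℂ(S)`; in other
words, `c` is the restriction of `Z` to the geometric generic fibre `T_Ω` of `S × T → S`. The theorem is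
about all `c`; no invariance is needed. `[Z]^* = 0` on `H^{2,0}(T)` means that `∑ c(σ) σ^* ω = 0` for
all global 2-forms `ω` on `T` (`NullTrace`). The components of a correspondence which do not dominate
both factors have no effect on `H^{2,0}`, and act by zero on the Albanese kernel.

`Rat K Ω` (`Pool/Agent/N162/BC/Defs.lean`) is rational equivalence of zero-cycles on `T_Ω`, modulo
the cycles which are supported on `D_Ω` for a curve `D` on `T`. If `c ∈ Rat K Ω` then a multiple of `Z` is
rationally equivalent to the sum of a cycle supported on `S × D` and a cycle supported on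
`D' × T`, for some curves `D` and `D'`, and so `Z_* = 0` on `F^2 CH_0(S)_ℚ` (Bloch and Srinivas; the
converse also holds; this is standard and not formalised here).

**Theorem.** Let `T ⇢ B` be a fibration in curves of genus at most `g` over a curve `B` of genus at
most `γ`, and let `T` have `p > (γ + d) g` linearly independent global 2-forms. Suppose that `g ≤ 1`, or
that the Gauss-Manin connection is irreducible in the sense that every nonzero regular differential
on the generic fibre generates all of them. If `c` has null trace and the points of `c` are on at
most `d + 1` fibres, then `c ∈ Rat K Ω`.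

So at most `⌈p_g / g⌉ - γ` fibres are allowed. Example: let `T → B` be an elliptic surface, over a curve
`B` of any genus `γ`, with any singular and multiple fibres, and let `χ = χ(O_T) > 0`. Then
`p_g - γ = χ - 1`, so Q1 holds for all surfaces `S` and all `Z` such that the points of `Z` over a
general point of `S` are on fewer than `χ(O_T)` fibres, in particular for all `Z` with fewer than
`χ(O_T)` points over a general point of `S`, with arbitrary multiplicities.

The case `γ = 0` is `MP_762f97_ag.FewMembersOfPencil` in the library. Its proof uses the forms `x^j ω₀` and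
Vandermonde's determinant. Here the surface may be irregular.

Proof. Let `u_1, ..., u_k`, `k ≤ d + 1`, be the points of `B` with values in `Ω` over which `c` has
points. (1) There are `N = γ + k - 1` points `Q_1, ..., Q_N` of `B` such that the functions in
`L(Q_1 + ... + Q_N)` separate the `u_i`: for a divisor `D` on `B` let `r(D)` be the dimension of the
space of the relations `∑ a_i f(u_i) = 0` between the values of the functions `f ∈ L(D)`, and let
`s(D) = ℓ(D) - deg D + r(D)`. Then `s(D + Q) ≤ s(D)` for all points `Q`. If there are infinitely many
points `Q` with equality then for each of them there is a function in `L(D + Q)`, not in `L(D)`,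
which satisfies all the relations for `D`; so the relations for `D` are relations for `D + E`, where `E` is
the sum of many of these points, and Riemann's theorem gives `r(D) = 0` and `s(D) = 1 - γ`. As
`s(0) ≤ k`, we can choose the points `Q_j` one after the other. This is elementary: it uses Riemann's
theorem, but not duality or extensions of the constant field. (2) The conditions that `f ω` is a global
form for all `f ∈ L(Q_1 + ... + Q_N)` are at most `N g` linear conditions on the global form `ω`, since
`g + 1` global forms satisfy a linear relation over the function field of `B`, whose values at `Q_j` give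
a linear combination with a zero on the fibre of `Q_j`. So there is such an `ω ≠ 0`. (3) By (1), the part
of `c` on each fibre has trace zero on `ω`. Now the theorem of the library on the Gauss-Manin connection
and divisors on the fibres applies.
-/

set_option autoImplicit false

open FF Pool.Agent.W602.GT

namespace Pool.Agent.Results.MP_31564d_ag.FewFibresOverCurve

open Pool.Agent.N162.BC

/-- `L` is the function field of the base `B` of a fibration `T ⇢ B` in curves (with connected
fibres): it has transcendence degree one and is algebraically closed in the function field `K` of the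
surface `T`. -/
def IsFibration {K : Type} [Field K] [Algebra ℂ K] (L : IntermediateField ℂ K) : Prop :=
  Algebra.trdeg ℂ L = 1 ∧ ∀ a : K, IsAlgebraic L a → a ∈ L

/-- The genus of the curve `B` with the function field `L` is at most `γ`. By Riemann's theorem
the genus is the least number `γ` such that `ℓ(D) ≥ deg D + 1 - γ` for all divisors `D` on `B`: if
`n ≤ deg D + 1 - γ` then there are `n` linearly independent functions `f` with `ord_P f ≥ - D(P)` for
all points `P` of `B`. -/
def BaseGenusLE {K : Type} [Field K] [Algebra ℂ K] (L : IntermediateField ℂ K) (γ : ℕ) : Prop :=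
  ∀ (D : Place ℂ L →₀ ℤ) (n : ℕ), (n : ℤ) + γ ≤ (D.sum fun _ a => a) + 1 →
    ∃ f : Fin n → L, LinearIndependent ℂ f ∧ ∀ i (P : Place ℂ L), -D P ≤ P.ord (f i)

/-- The genus of the fibres is at most `g`: the regular differentials on the generic fibre are a
vector space over `L` of dimension at most `g`. -/
def GenusLE {K : Type} [Field K] [Algebra ℂ K] (L : IntermediateField ℂ K) (g : ℕ) : Prop :=
  ∀ ω : Fin (g + 1) → (Fin 2 → Derivation ℂ K K) → K, (∀ i, FibreForm L 2 (ω i)) →
    ∃ l : Fin (g + 1) → K, (∀ i, l i ∈ L) ∧ l ≠ 0 ∧ ∀ X, ∑ i, l i * ω i X = 0

/-- The Gauss-Manin connection of the fibration is irreducible: every nonzero regular differential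
on the generic fibre generates all regular differentials. -/
def IrreducibleGM {K : Type} [Field K] [Algebra ℂ K] (L : IntermediateField ℂ K) : Prop :=
  ∀ ω, FibreForm L 2 ω → ω ≠ 0 → ∀ ω', FibreForm L 2 ω' → GMSpan L (fun η => η = ω) ω'

/-- The number of the fibres of `T ⇢ B` which contain points of `c`: the number of the points of `B`
with values in `Ω` which are the images of the points `σ` with `c σ ≠ 0`. -/
noncomputable def numFibres {K Ω : Type} [Field K] [Algebra ℂ K] [Field Ω] [Algebra ℂ Ω]
    (L : IntermediateField ℂ K) (c : (K →ₐ[ℂ] Ω) →₀ ℤ) : ℕ :=
  Set.ncard {u : L →ₐ[ℂ] Ω | ∃ σ : K →ₐ[ℂ] Ω, c σ ≠ 0 ∧ u = σ.comp L.val}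

/-- **Bloch's conjecture for correspondences which hit few fibres of a fibration over a curve of any
genus.** Let `K` be the function field of a surface `T` and let `Ω` be an algebraically closed field of
transcendence degree `2`. Let `L` be the function field of the base `B`, of genus at most `γ`, of a
fibration of `T` in curves of genus at most `g`; if `g ≥ 2` assume that the Gauss-Manin connection is
irreducible. Let there be `p > (γ + d) g` linearly independent global 2-forms on `T`. Let `c` be an
integral combination of embeddings `K → Ω` over `ℂ` with null trace, whose points are on at most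
`d + 1` fibres. Then `c ∈ Rat K Ω`. -/
theorem result {K Ω : Type} [Field K] [Algebra ℂ K] [Algebra.EssFiniteType ℂ K] [Field Ω]
    [Algebra ℂ Ω] [IsAlgClosed Ω] (hK : Algebra.trdeg ℂ K = 2) (hΩ : Algebra.trdeg ℂ Ω = 2)
    {L : IntermediateField ℂ K} [Algebra.EssFiniteType ℂ L] (hL : IsFibration L) {γ g p d : ℕ}
    (hγ : BaseGenusLE L γ) (hg : GenusLE L g) (hirr : g ≤ 1 ∨ IrreducibleGM L)
    {ω : Fin p → (Fin 2 → Derivation ℂ K K) → K} (hω : ∀ i, GlobalForm 2 (ω i))
    (hind : LinearIndependent ℂ ω) (hd : (γ + d) * g < p) {c : (K →ₐ[ℂ] Ω) →₀ ℤ}
    (hc : NullTrace 2 c) (hn : numFibres L c ≤ d + 1) : c ∈ Rat K Ω := by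
  have hK' : Algebra.trdeg ℂ K = ((1 + 1 : ℕ) : Cardinal) := by rw [hK]; norm_num
  have hΩ' : Algebra.trdeg ℂ Ω = ((1 + 1 : ℕ) : Cardinal) := by rw [hΩ]; norm_num
  have : IsFF ℂ L := ⟨inferInstance, hL.1⟩
  have hγ' : ∀ D : Place ℂ L →₀ ℤ, ddeg D + 1 ≤ ell D + γ := by
    intro D
    have h0 : ddeg D = D.sum fun _ a => a := by
      unfold ddeg
      refine Finsupp.sum_congr fun P _ => ?_
      rw [Pool.Agent.W603.LV.deg_one, Nat.cast_one, mul_one]
    have h1 := ell_nonneg D
    by_contra hcon
    push Not at hcon
    obtain ⟨n, hn⟩ : ∃ n : ℕ, (n : ℤ) = ddeg D + 1 - γ := ⟨(ddeg D + 1 - γ).toNat, by omega⟩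
    obtain ⟨f, hf, hf'⟩ := hγ D n (by rw [← h0]; omega)
    have h2 : LinearIndependent ℂ (fun i => (⟨f i, Or.inr (hf' i)⟩ : LL D)) :=
      LinearIndependent.of_comp (LL D).subtype hf
    have h3 := h2.fintype_card_le_finrank
    rw [Fintype.card_fin] at h3
    unfold ell at hcon
    omega
  refine Pool.Agent.K6.H85.main_base hK' hΩ' hL.2 hγ' hg ?_ hω hind hd hc ?_
  · rcases hirr with h1 | h1
    · intro η hη hη0 η' hη'
      -- a relation between the two forms
      have h2 : ∃ l : Fin 2 → K, (∀ i, l i ∈ L) ∧ l ≠ 0 ∧
          ∀ X, l 0 * η X + l 1 * η' X = 0 := by
        obtain rfl | rfl : g = 0 ∨ g = 1 := by omega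
        · obtain ⟨l, hl, hl0, hrel⟩ := hg ![η] (by simpa using hη)
          refine ⟨![l 0, 0], ?_, ?_, ?_⟩
          · intro i
            fin_cases i
            · exact hl 0
            · exact zero_mem _
          · intro h0
            apply hl0
            funext i
            fin_cases i
            exact congrFun h0 0
          · intro X
            have h3 := hrel X
            rw [Fin.sum_univ_one] at h3
            change l 0 * η X + 0 * η' X = 0
            rw [zero_mul, add_zero]
            exact h3
        · obtain ⟨l, hl, hl0, hrel⟩ := hg ![η, η'] (by
            intro i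
            fin_cases i
            · exact hη
            · exact hη')
          refine ⟨l, hl, hl0, fun X => ?_⟩
          have h3 := hrel X
          rw [Fin.sum_univ_two] at h3
          exact h3
      obtain ⟨l, hl, hl0, hrel⟩ := h2
      have h4 : l 1 ≠ 0 := by
        intro h5
        have h6 : l 0 ≠ 0 := by
          intro h6
          apply hl0
          funext i
          fin_cases i
          · exact h6
          · exact h5
        apply hη0
        funext X
        have h7 := hrel X
        rw [h5, zero_mul, add_zero] at h7
        exact (mul_eq_zero.1 h7).resolve_left h6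
      have h5 : η' = fun X => (-(l 0 / l 1)) * η X := by
        funext X
        have h7 := hrel X
        field_simp
        linear_combination h7
      rw [h5]
      exact .mul (neg_mem (div_mem (hl 0) (hl 1))) (.base rfl)
    · exact h1
  · refine le_trans (le_of_eq ?_) hn
    unfold numFibres
    congr 1
    ext u
    constructor
    · rintro ⟨σ, hσ, rfl⟩
      exact ⟨σ, Finsupp.mem_support_iff.1 hσ, rfl⟩
    · rintro ⟨σ, hσ, rfl⟩
      exact ⟨σ, Finsupp.mem_support_iff.2 hσ, rfl⟩

end Pool.Agent.Results.MP_31564d_ag.FewFibresOverCurve
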